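import Mathlib

/-!
# T-characterized subgroups of topological abelian groups

Definitions and two general lemmas used for `MP_67c2f3_gt` and `MP_24a371_gt`.
-/

open Filter Topology

namespace Pool.Agent.Q148.TChar

/-- A sequence `v` in an abstract abelian group `G` is a `T`-sequence if `G` admits a Hausdorff
group topology in which `v` converges to `0`. -/
def IsTSeq {G : Type*} [AddCommGroup G] (v : ℕ → G) : Prop :=
  ∃ t : TopologicalSpace G, @IsTopologicalAddGroup G t _ ∧ @T2Space G t ∧
    Tendsto v atTop (@nhds G t 0)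

/-- The subgroup `H` of the topological abelian group `X` is `T`-characterized: it is
`{x | v n x → 0}` for some sequence `v` of characters that is a `T`-sequence in the (abstract)
dual group `X →ₜ+ UnitAddCircle`. -/
def TCharacterized {X : Type*} [TopologicalSpace X] [AddCommGroup X] (H : AddSubgroup X) : Prop :=
  ∃ v : ℕ → (X →ₜ+ UnitAddCircle), IsTSeq v ∧
    ∀ x : X, x ∈ H ↔ Tendsto (fun n => v n x) atTop (𝓝 0)

/-- `Y` is autocharacterized: there is a sequence of characters, not eventually `0`, converging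
to `0` at every point of `Y`. -/
def Autocharacterized (Y : Type*) [TopologicalSpace Y] [AddCommGroup Y] : Prop :=
  ∃ u : ℕ → (Y →ₜ+ UnitAddCircle), (¬ ∀ᶠ n in atTop, u n = 0) ∧
    ∀ y : Y, Tendsto (fun n => u n y) atTop (𝓝 0)

/-- `H` is a topological direct summand of `X`. -/
def IsTopDirectSummand {X : Type*} [TopologicalSpace X] [AddCommGroup X]
    (H : AddSubgroup X) : Prop :=
  ∃ (Z : AddSubgroup X) (e : (H × Z) ≃ₜ X), ∀ (h : H) (z : Z), e (h, z) = (h : X) + (z : X)

/-- `X₁` is dually embedded in `X₂`: every character of `X₁` extends to a character of `X₂`. -/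
def DuallyEmbedded {X : Type*} [TopologicalSpace X] [AddCommGroup X]
    (X₁ X₂ : AddSubgroup X) (h : X₁ ≤ X₂) : Prop :=
  ∀ χ : X₁ →ₜ+ UnitAddCircle, ∃ ψ : X₂ →ₜ+ UnitAddCircle,
    ∀ x : X₁, ψ ⟨(x : X), h x.2⟩ = χ x

theorem neg_apply' {Y : Type*} [TopologicalSpace Y] [AddCommGroup Y]
    (x : Y →ₜ+ UnitAddCircle) (y : Y) : (-x) y = -(x y) := rfl

theorem nsmul_apply' {Y : Type*} [TopologicalSpace Y] [AddCommGroup Y]
    (N : ℕ) (x : Y →ₜ+ UnitAddCircle) (y : Y) : (N • x) y = N • (x y) := by
  induction N with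
  | zero => rw [zero_nsmul, zero_nsmul]; rfl
  | succ N ih => rw [succ_nsmul, succ_nsmul, ContinuousAddMonoidHom.add_apply, ih]

/-- The negative criterion. -/
theorem not_tCharacterized {Y : Type*} [TopologicalSpace Y] [AddCommGroup Y] (d : Y) (N : ℕ)
    (h1 : ∀ χ χ' : Y →ₜ+ UnitAddCircle, χ d ≠ 0 → χ' d ≠ 0 → N • χ = N • χ')
    (h2 : ∀ χ : Y →ₜ+ UnitAddCircle, χ d ≠ 0 → N • χ ≠ 0)
    (H : AddSubgroup Y) (hd : d ∉ H) : ¬ TCharacterized H := by
  rintro ⟨w, ⟨t, ht1, ht2, hw⟩, hH⟩
  have hnot : ¬ Tendsto (fun n => w n d) atTop (𝓝 0) := fun h => hd ((hH d).2 h)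
  have hfreq : ∃ᶠ n in atTop, w n d ≠ 0 := by
    intro hev
    apply hnot
    apply tendsto_const_nhds.congr'
    filter_upwards [hev] with n hn
    by_contra h
    exact hn (fun h' => h h'.symm)
  obtain ⟨n0, hn0⟩ := hfreq.exists
  have hlim : Tendsto (fun n => N • w n) atTop (@nhds _ t 0) := by
    have hc : @Continuous _ _ t t (fun x : Y →ₜ+ UnitAddCircle => N • x) := by
      let _ := t
      exact continuous_nsmul N
    have := (@Continuous.tendsto _ _ t t _ hc 0).comp hw
    simpa [Function.comp_def] using this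
  have hne : (N • w n0) ≠ 0 := h2 _ hn0
  have hopen : ∀ᶠ n in atTop, N • w n ≠ N • w n0 := by
    have h3 : {N • w n0}ᶜ ∈ @nhds _ t 0 := by
      let _ := t
      exact (isOpen_compl_singleton).mem_nhds (fun h => hne (by simpa using h.symm))
    exact hlim h3
  obtain ⟨n, hn1, hn2⟩ := (hfreq.and_eventually hopen).exists
  exact hn2 (h1 _ _ hn1 hn0)

/-- A sequence whose tails generate subgroups with trivial intersection is a `T`-sequence. -/
theorem isTSeq_of_closure {G : Type*} [AddCommGroup G] (v : ℕ → G)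
    (h : ∀ g : G, (∀ m, g ∈ AddSubgroup.closure (v '' Set.Ici m)) → g = 0) : IsTSeq v := by
  let A : ℕ → AddSubgroup G := fun m => AddSubgroup.closure (v '' Set.Ici m)
  have hanti : Antitone A := by
    intro a b hab
    exact AddSubgroup.closure_mono (Set.image_mono (Set.Ici_subset_Ici.2 hab))
  let B : AddGroupFilterBasis G :=
    { sets := Set.range (fun m => (A m : Set G))
      nonempty := ⟨_, 0, rfl⟩
      inter_sets := by
        rintro _ _ ⟨a, rfl⟩ ⟨b, rfl⟩
        refine ⟨_, ⟨max a b, rfl⟩, ?_⟩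
        intro x hx
        exact ⟨hanti (le_max_left a b) hx, hanti (le_max_right a b) hx⟩
      zero' := by
        rintro _ ⟨a, rfl⟩
        exact (A a).zero_mem
      add' := by
        rintro _ ⟨a, rfl⟩
        refine ⟨_, ⟨a, rfl⟩, ?_⟩
        rintro _ ⟨x, hx, y, hy, rfl⟩
        exact (A a).add_mem hx hy
      neg' := by
        rintro _ ⟨a, rfl⟩
        refine ⟨_, ⟨a, rfl⟩, ?_⟩
        intro x hx
        exact (A a).neg_mem hx
      conj' := by
        rintro x _ ⟨a, rfl⟩
        refine ⟨_, ⟨a, rfl⟩, ?_⟩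
        intro y hy
        simpa using hy }
  refine ⟨B.topology, B.isTopologicalAddGroup, ?_, ?_⟩
  · let _ := B.topology
    have := B.isTopologicalAddGroup
    apply IsTopologicalAddGroup.t2Space_of_zero_sep
    intro x hx
    by_contra hcon
    push Not at hcon
    apply hx
    apply h
    intro m
    exact hcon _ (B.mem_nhds_zero ⟨m, rfl⟩)
  · rw [B.nhds_zero_hasBasis.tendsto_right_iff]
    rintro _ ⟨m, rfl⟩
    filter_upwards [eventually_ge_atTop m] with n hn
    exact AddSubgroup.subset_closure ⟨n, hn, rfl⟩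

/-- The positive criterion. -/
theorem isTSeq_of_gen {Y : Type*} [TopologicalSpace Y] [AddCommGroup Y] (d : Y) (e : ℕ → Y)
    (hgen : AddSubgroup.closure (insert d (Set.range e)) = ⊤) (c : UnitAddCircle)
    (v : ℕ → (Y →ₜ+ UnitAddCircle)) (hvd : ∀ n, v n d = c)
    (hve : ∀ n k, v n (e k) = if n = k then c else 0) : IsTSeq v := by
  apply isTSeq_of_closure
  intro g hg
  have hvan : ∀ k, g (e k) = 0 := by
    intro k
    refine AddSubgroup.closure_induction (p := fun g _ => g (e k) = 0) ?_ ?_ ?_ ?_ (hg (k + 1))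
    · rintro _ ⟨n, hn, rfl⟩
      rw [hve, if_neg]
      rintro rfl
      simp at hn
    · rfl
    · intro x y _ _ hx hy
      rw [ContinuousAddMonoidHom.add_apply, hx, hy, add_zero]
    · intro x _ hx
      rw [neg_apply', hx, neg_zero]
  have hfin : {k | g (e k) ≠ 0}.Finite ∧ g d = ∑ᶠ k, g (e k) := by
    refine AddSubgroup.closure_induction
      (p := fun g _ => {k | g (e k) ≠ 0}.Finite ∧ g d = ∑ᶠ k, g (e k)) ?_ ?_ ?_ ?_ (hg 0)
    · rintro _ ⟨n, hn, rfl⟩
      refine ⟨(Set.finite_singleton n).subset ?_, ?_⟩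
      · intro k hk
        by_contra hkn
        apply hk
        rw [hve, if_neg]
        intro h
        exact hkn h.symm
      · rw [hvd, finsum_eq_single _ n]
        · rw [hve, if_pos rfl]
        · intro k hk
          rw [hve, if_neg (Ne.symm hk)]
    · refine ⟨?_, ?_⟩
      · have : {k | (0 : Y →ₜ+ UnitAddCircle) (e k) ≠ 0} = ∅ := by
          ext k; simp
        rw [this]; exact Set.finite_empty
      · have : ∀ k, (0 : Y →ₜ+ UnitAddCircle) (e k) = 0 := fun k => rfl
        simp only [this, finsum_zero]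
        rfl
    · rintro x y _ _ ⟨hx1, hx2⟩ ⟨hy1, hy2⟩
      refine ⟨(hx1.union hy1).subset ?_, ?_⟩
      · intro k hk
        by_contra hcon
        rw [Set.mem_union, not_or] at hcon
        obtain ⟨ha, hb⟩ := hcon
        apply hk
        have ha' : x (e k) = 0 := by
          by_contra h; exact ha h
        have hb' : y (e k) = 0 := by
          by_contra h; exact hb h
        rw [ContinuousAddMonoidHom.add_apply, ha', hb', add_zero]
      · simp only [ContinuousAddMonoidHom.add_apply]
        rw [finsum_add_distrib hx1 hy1, hx2, hy2]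
    · rintro x _ ⟨hx1, hx2⟩
      refine ⟨hx1.subset ?_, ?_⟩
      · intro k hk
        intro h
        apply hk
        rw [neg_apply', h, neg_zero]
      · simp only [neg_apply']
        rw [finsum_neg_distrib, hx2]
  have hd0 : g d = 0 := by
    rw [hfin.2]
    simp [hvan]
  ext y
  have hy : y ∈ AddSubgroup.closure (insert d (Set.range e)) := by
    rw [hgen]; trivial
  refine AddSubgroup.closure_induction (p := fun y _ => g y = (0 : Y →ₜ+ UnitAddCircle) y)
    ?_ ?_ ?_ ?_ hy
  · intro x hx
    rcases hx with rfl | ⟨k, rfl⟩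
    · rw [hd0]; rfl
    · rw [hvan]; rfl
  · rw [map_zero]; rfl
  · intro x y _ _ hx hy
    rw [map_add, hx, hy]
    exact add_zero _
  · intro x _ hx
    rw [map_neg, hx]
    exact neg_zero

/-- The point `1/2` of the circle. -/
noncomputable def half : UnitAddCircle := ((1 / 2 : ℝ) : UnitAddCircle)

theorem two_half : (2 : ℕ) • half = 0 := by
  unfold half
  rw [← AddCircle.coe_nsmul]
  have : (2 : ℕ) • (1 / 2 : ℝ) = 1 := by norm_num
  rw [this]
  exact AddCircle.coe_period 1

theorem eq_half {x : UnitAddCircle} (h : (2 : ℕ) • x = 0) (hx : x ≠ 0) : x = half := by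
  obtain ⟨m, hm, rfl⟩ := (AddCircle.nsmul_eq_zero_iff (p := (1 : ℝ)) two_pos).1 h
  interval_cases m
  · exact absurd (by simp) hx
  · unfold half
    norm_num

theorem half_ne : half ≠ 0 := by
  unfold half
  intro h
  rw [AddCircle.coe_eq_zero_iff] at h
  obtain ⟨n, hn⟩ := h
  have h1 : (n : ℝ) = 1 / 2 := by simpa using hn
  have h2 : ((2 * n : ℤ) : ℝ) = ((1 : ℤ) : ℝ) := by push_cast; linarith
  have h3 : (2 * n : ℤ) = 1 := by exact_mod_cast h2
  omega

end Pool.Agent.Q148.TChar
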